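import Mathlib

/-!
# Project RO (MP_5f0000_al): Kazhdan groups onto infinitely many groups PSU_3(q)

Definitions: the Hermitian form, SU_3, stabilizers, explicit elements, transvections, the set of
isotropic points.
-/

set_option autoImplicit false

namespace Pool.Agent.N904.RO

open Matrix

/-- a finite field of characteristic 3 with `Q ^ 2` elements and its involution `x ↦ x ^ Q` -/
structure FI (K : Type) [Field K] (σ : K →+* K) (Q : ℕ) : Prop where
  fin : Finite K
  card : Nat.card K = Q ^ 2
  pow : ∀ x, σ x = x ^ Q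
  three : (3 : K) = 0
  nine : 9 ≤ Q

section

variable {K : Type} [Field K]

theorem FI.inv {σ : K →+* K} {Q : ℕ} (h : FI K σ Q) (x : K) : σ (σ x) = x := by
  have := h.fin
  have := Fintype.ofFinite K
  rw [h.pow, h.pow, ← pow_mul, ← sq, ← h.card, Nat.card_eq_fintype_card]
  exact FiniteField.pow_card x

/-- the Hermitian form -/
def hf (σ : K →+* K) (x y : Fin 3 → K) : K := σ (x 0) * y 0 + σ (x 1) * y 1 + σ (x 2) * y 2

variable {σ : K →+* K}

theorem hf_add_right (x y z : Fin 3 → K) : hf σ x (y + z) = hf σ x y + hf σ x z := by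
  simp only [hf, Pi.add_apply]; ring

theorem hf_add_left (x y z : Fin 3 → K) : hf σ (x + y) z = hf σ x z + hf σ y z := by
  simp only [hf, Pi.add_apply, map_add]; ring

theorem hf_smul_right (c : K) (x y : Fin 3 → K) : hf σ x (c • y) = c * hf σ x y := by
  simp only [hf, Pi.smul_apply, smul_eq_mul]; ring

theorem hf_smul_left (c : K) (x y : Fin 3 → K) : hf σ (c • x) y = σ c * hf σ x y := by
  simp only [hf, Pi.smul_apply, smul_eq_mul, map_mul]; ring

theorem hf_sub_right (x y z : Fin 3 → K) : hf σ x (y - z) = hf σ x y - hf σ x z := by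
  simp only [hf, Pi.sub_apply]; ring

theorem hf_sub_left (x y z : Fin 3 → K) : hf σ (x - y) z = hf σ x z - hf σ y z := by
  simp only [hf, Pi.sub_apply, map_sub]; ring

theorem hf_zero_right (x : Fin 3 → K) : hf σ x 0 = 0 := by simp [hf]

theorem hf_zero_left (x : Fin 3 → K) : hf σ 0 x = 0 := by simp [hf]

theorem hf_symm (hσ : ∀ x, σ (σ x) = x) (x y : Fin 3 → K) : σ (hf σ x y) = hf σ y x := by
  simp only [hf, map_add, map_mul, hσ]; ring

theorem hf_nondeg (x y : Fin 3 → K) (h : ∀ z, hf σ z x = hf σ z y) : x = y := by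
  funext i
  have := h (Pi.single i 1)
  fin_cases i <;> simpa [hf, Pi.single_apply] using this

variable (K σ)

/-- the special unitary group of the form `hf` -/
@[ext] structure SU where
  /-- the matrix -/
  M : Matrix (Fin 3) (Fin 3) K
  det : M.det = 1
  un : ∀ x y, hf σ (M *ᵥ x) (M *ᵥ y) = hf σ x y

variable {K σ}

theorem SU.mul_adj (g : SU K σ) : g.M * g.M.adjugate = 1 := by
  rw [mul_adjugate, g.det, one_smul]

theorem SU.adj_mul (g : SU K σ) : g.M.adjugate * g.M = 1 := by
  rw [adjugate_mul, g.det, one_smul]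

instance : Group (SU K σ) where
  one := ⟨1, det_one, by intro x y; simp⟩
  mul g h := ⟨g.M * h.M, by rw [det_mul, g.det, h.det, one_mul], by
    intro x y
    rw [← mulVec_mulVec, ← mulVec_mulVec, g.un, h.un]⟩
  inv g := ⟨g.M.adjugate, by rw [det_adjugate, g.det, one_pow], by
    intro x y
    have h1 : ∀ z : Fin 3 → K, g.M *ᵥ (g.M.adjugate *ᵥ z) = z := by
      intro z
      rw [mulVec_mulVec, g.mul_adj, one_mulVec]
    have h2 := g.un (g.M.adjugate *ᵥ x) (g.M.adjugate *ᵥ y)
    rw [h1, h1] at h2
    exact h2.symm⟩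
  mul_assoc a b c := SU.ext (Matrix.mul_assoc _ _ _)
  one_mul a := SU.ext (Matrix.one_mul _)
  mul_one a := SU.ext (Matrix.mul_one _)
  inv_mul_cancel a := SU.ext a.adj_mul

theorem SU.one_M : (1 : SU K σ).M = 1 := rfl

theorem SU.mul_M (g h : SU K σ) : (g * h).M = g.M * h.M := rfl

theorem SU.inv_M (g : SU K σ) : (g⁻¹).M = g.M.adjugate := rfl

/-- the action on vectors -/
def ac (g : SU K σ) (x : Fin 3 → K) : Fin 3 → K := g.M *ᵥ x

theorem ac_one (x : Fin 3 → K) : ac (1 : SU K σ) x = x := by
  rw [ac, SU.one_M, one_mulVec]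

theorem ac_mul (g h : SU K σ) (x : Fin 3 → K) : ac (g * h) x = ac g (ac h x) := by
  rw [ac, SU.mul_M, ac, ac, mulVec_mulVec]

theorem ac_inv_ac (g : SU K σ) (x : Fin 3 → K) : ac g⁻¹ (ac g x) = x := by
  rw [← ac_mul, inv_mul_cancel, ac_one]

theorem ac_ac_inv (g : SU K σ) (x : Fin 3 → K) : ac g (ac g⁻¹ x) = x := by
  rw [← ac_mul, mul_inv_cancel, ac_one]

theorem ac_hf (g : SU K σ) (x y : Fin 3 → K) : hf σ (ac g x) (ac g y) = hf σ x y := g.un x y

theorem ac_add (g : SU K σ) (x y : Fin 3 → K) : ac g (x + y) = ac g x + ac g y := by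
  simp only [ac, mulVec_add]

theorem ac_smul (g : SU K σ) (c : K) (x : Fin 3 → K) : ac g (c • x) = c • ac g x := by
  simp only [ac, mulVec_smul]

theorem ac_sub (g : SU K σ) (x y : Fin 3 → K) : ac g (x - y) = ac g x - ac g y := by
  simp only [ac, mulVec_sub]

theorem ac_zero (g : SU K σ) : ac g 0 = 0 := by simp only [ac, mulVec_zero]

theorem ac_ext {g h : SU K σ} (H : ∀ x, ac g x = ac h x) : g = h :=
  SU.ext (Matrix.mulVec_injective (funext fun x => H x))

theorem ac_inj (g : SU K σ) {x y : Fin 3 → K} (h : ac g x = ac g y) : x = y := by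
  rw [← ac_inv_ac g x, h, ac_inv_ac]

/-- the standard basis -/
def ee (i : Fin 3) : Fin 3 → K := Pi.single i 1

variable (K σ)

/-- the stabilizer of a basis vector; `St 2`, `St 0`, `St 1` are the three standard `SU_2` -/
def St (i : Fin 3) : Subgroup (SU K σ) where
  carrier := {g | ac g (ee i) = ee i}
  one_mem' := ac_one _
  mul_mem' := by
    intro a b ha hb
    show ac (a * b) (ee i) = ee i
    rw [ac_mul, show ac b (ee i) = ee i from hb, show ac a (ee i) = ee i from ha]
  inv_mem' := by
    intro a ha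
    show ac a⁻¹ (ee i) = ee i
    rw [← show ac a (ee i) = ee i from ha, ac_inv_ac, show ac a (ee i) = ee i from ha]

variable {K σ}

/-- construction of elements from matrices -/
def mk (M : Matrix (Fin 3) (Fin 3) K) (h1 : M.det = 1)
    (h2 : ∀ x y, hf σ (M *ᵥ x) (M *ᵥ y) = hf σ x y) : SU K σ := ⟨M, h1, h2⟩

/-- the element of `St 2` with first column `(a, b, 0)` -/
def mkA (hσ : ∀ x, σ (σ x) = x) (a b : K) (h : σ a * a + σ b * b = 1) : SU K σ :=
  mk !![a, -σ b, 0; b, σ a, 0; 0, 0, 1]
    (by simp [Matrix.det_fin_three]; linear_combination h)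
    (by
      intro x y
      simp only [hf, mulVec, dotProduct, Fin.sum_univ_three, Matrix.of_apply, Matrix.cons_val',
        Matrix.cons_val_zero, Matrix.cons_val_one, Matrix.cons_val_two, Matrix.head_cons,
        Matrix.tail_cons, Matrix.empty_val', Matrix.cons_val_fin_one, Matrix.head_fin_const,
        Matrix.cons_val, map_add, map_mul, map_neg, map_zero, map_one, hσ]
      linear_combination (σ (x 0) * y 0 + σ (x 1) * y 1) * h)

/-- the element of `St 0` with second column `(0, a, b)` -/
def mkB (hσ : ∀ x, σ (σ x) = x) (a b : K) (h : σ a * a + σ b * b = 1) : SU K σ :=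
  mk !![1, 0, 0; 0, a, -σ b; 0, b, σ a]
    (by simp [Matrix.det_fin_three]; linear_combination h)
    (by
      intro x y
      simp only [hf, mulVec, dotProduct, Fin.sum_univ_three, Matrix.of_apply, Matrix.cons_val',
        Matrix.cons_val_zero, Matrix.cons_val_one, Matrix.cons_val_two, Matrix.head_cons,
        Matrix.tail_cons, Matrix.empty_val', Matrix.cons_val_fin_one, Matrix.head_fin_const,
        Matrix.cons_val, map_add, map_mul, map_neg, map_zero, map_one, hσ]
      linear_combination (σ (x 1) * y 1 + σ (x 2) * y 2) * h)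

/-- the cyclic permutation `e_0 ↦ e_1 ↦ e_2 ↦ e_0` -/
def cyc : SU K σ :=
  mk !![0, 0, 1; 1, 0, 0; 0, 1, 0]
    (by simp [Matrix.det_fin_three])
    (by
      intro x y
      simp [hf, mulVec, dotProduct, Fin.sum_univ_three]
      ring)

/-- diagonal elements -/
def dg (d : Fin 3 → K) (h : ∀ i, σ (d i) * d i = 1) (h1 : d 0 * d 1 * d 2 = 1) : SU K σ :=
  mk (Matrix.diagonal d)
    (by rw [det_diagonal, Fin.prod_univ_three]; exact h1)
    (by
      intro x y
      simp only [hf, mulVec_diagonal, map_mul]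
      linear_combination (σ (x 0) * y 0) * h 0 + (σ (x 1) * y 1) * h 1 + (σ (x 2) * y 2) * h 2)

/-- conjugation by a diagonal unitary matrix (of any determinant) -/
def cj (hσ : ∀ x, σ (σ x) = x) (d : Fin 3 → K) (h : ∀ i, σ (d i) * d i = 1) :
    SU K σ →* SU K σ where
  toFun g := mk (Matrix.diagonal d * g.M *
      Matrix.diagonal (fun i => σ (d i)))
    (by
      rw [det_mul, det_mul, det_diagonal, det_diagonal, g.det, mul_one,
        ← Finset.prod_mul_distrib]
      exact Finset.prod_eq_one fun i _ => by rw [mul_comm]; exact h i)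
    (by
      intro x y
      have h1 : ∀ z w : Fin 3 → K, hf σ (Matrix.diagonal d *ᵥ z) (Matrix.diagonal d *ᵥ w) =
          hf σ z w := by
        intro z w
        simp only [hf, mulVec_diagonal, map_mul]
        linear_combination (σ (z 0) * w 0) * h 0 + (σ (z 1) * w 1) * h 1 + (σ (z 2) * w 2) * h 2
      have h2 : ∀ z w : Fin 3 → K, hf σ (Matrix.diagonal (fun i => σ (d i)) *ᵥ z)
          (Matrix.diagonal (fun i => σ (d i)) *ᵥ w) = hf σ z w := by
        intro z w
        simp only [hf, mulVec_diagonal, map_mul, hσ]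
        linear_combination (σ (z 0) * w 0) * h 0 + (σ (z 1) * w 1) * h 1 + (σ (z 2) * w 2) * h 2
      rw [← mulVec_mulVec, ← mulVec_mulVec, ← mulVec_mulVec, ← mulVec_mulVec, h1]
      exact (g.un _ _).trans (h2 _ _))
  map_one' := by
    apply SU.ext
    show Matrix.diagonal d * (1 : Matrix (Fin 3) (Fin 3) K) * Matrix.diagonal (fun i => σ (d i)) = 1
    rw [mul_one, diagonal_mul_diagonal]
    have : (fun i => d i * σ (d i)) = fun _ => 1 := funext fun i => by rw [mul_comm]; exact h i
    rw [this, diagonal_one]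
  map_mul' := by
    intro a b
    apply SU.ext
    show Matrix.diagonal d * (a.M * b.M) *
      Matrix.diagonal (fun i => σ (d i)) = (Matrix.diagonal d * a.M *
      Matrix.diagonal (fun i => σ (d i))) * (Matrix.diagonal d * b.M *
      Matrix.diagonal (fun i => σ (d i)))
    have h3 : Matrix.diagonal (fun i => σ (d i)) * Matrix.diagonal d =
        (1 : Matrix (Fin 3) (Fin 3) K) := by
      rw [diagonal_mul_diagonal]
      have : (fun i => σ (d i) * d i) = fun _ => 1 := funext fun i => h i
      rw [this, diagonal_one]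
    have h4 : Matrix.diagonal d * a.M *
        Matrix.diagonal (fun i => σ (d i)) * (Matrix.diagonal d * b.M *
        Matrix.diagonal (fun i => σ (d i))) = Matrix.diagonal d * a.M *
        (Matrix.diagonal (fun i => σ (d i)) * Matrix.diagonal d) *
        b.M * Matrix.diagonal (fun i => σ (d i)) := by
      simp only [Matrix.mul_assoc]
    rw [h4, h3, mul_one]
    simp only [Matrix.mul_assoc]

/-- the matrix of a transvection `x ↦ x + l h(w, x) w` -/
def tvM (σ : K →+* K) (w : Fin 3 → K) (l : K) : Matrix (Fin 3) (Fin 3) K :=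
  1 + Matrix.of fun i j => l * w i * σ (w j)

theorem tvM_mulVec (w : Fin 3 → K) (l : K) (x : Fin 3 → K) :
    tvM σ w l *ᵥ x = x + (l * hf σ w x) • w := by
  rw [tvM, add_mulVec, one_mulVec]
  funext i
  simp only [Pi.add_apply, mulVec, dotProduct, Fin.sum_univ_three,
    Matrix.of_apply, Pi.smul_apply, smul_eq_mul, hf]
  ring

/-- the transvection `x ↦ x + l h(w, x) w` for an isotropic vector `w` and `l` of trace zero -/
def tv (hσ : ∀ x, σ (σ x) = x) (w : Fin 3 → K) (l : K) (hw : hf σ w w = 0) (hl : σ l = -l) :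
    SU K σ :=
  mk (tvM σ w l)
    (by
      simp only [hf] at hw
      simp [tvM, Matrix.det_fin_three, Matrix.one_apply]
      linear_combination l * hw)
    (by
      intro x y
      rw [tvM_mulVec, tvM_mulVec, hf_add_left, hf_add_right, hf_add_right, hf_smul_left,
        hf_smul_left, hf_smul_right, hf_smul_right, hw, map_mul, hl, hf_symm hσ w x]
      ring)

theorem ac_tv (hσ : ∀ x, σ (σ x) = x) (w : Fin 3 → K) (l : K) (hw : hf σ w w = 0) (hl : σ l = -l)
    (x : Fin 3 → K) : ac (tv hσ w l hw hl) x = x + (l * hf σ w x) • w := tvM_mulVec w l x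

/-- the homomorphism induced by a field homomorphism compatible with the involutions -/
def mp {k : Type} [Field k] {τ : k →+* k} (f : k →+* K) (hf' : ∀ x, f (τ x) = σ (f x))
    (hτ : ∀ x, τ (τ x) = x) : SU k τ →* SU K σ where
  toFun g := mk (g.M.map f)
    (by
      have := (RingHom.map_det f g.M).symm
      rw [g.det, map_one] at this
      exact this)
    (by
      -- unitarity as a matrix identity
      have hg : ∀ i j : Fin 3, τ (g.M 0 i) *
          g.M 0 j + τ (g.M 1 i) *
          g.M 1 j + τ (g.M 2 i) *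
          g.M 2 j = if i = j then 1 else 0 := by
        intro i j
        have h := g.un (Pi.single i 1) (Pi.single j 1)
        simp only [hf, mulVec_single_one, Matrix.col_apply] at h
        rw [h]
        fin_cases i <;> fin_cases j <;> simp [Pi.single_apply]
      have hg' : ∀ i j : Fin 3, σ (f (g.M 0 i)) *
          f (g.M 0 j) + σ (f (g.M 1 i)) *
          f (g.M 1 j) + σ (f (g.M 2 i)) *
          f (g.M 2 j) = if i = j then 1 else 0 := by
        intro i j
        have h := congrArg f (hg i j)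
        simp only [map_add, map_mul, hf'] at h
        rw [h]
        split_ifs <;> simp
      intro x y
      simp only [hf, mulVec, dotProduct, Fin.sum_univ_three, Matrix.map_apply, map_add, map_mul]
      have h00 := hg' 0 0
      have h01 := hg' 0 1
      have h02 := hg' 0 2
      have h10 := hg' 1 0
      have h11 := hg' 1 1
      have h12 := hg' 1 2
      have h20 := hg' 2 0
      have h21 := hg' 2 1
      have h22 := hg' 2 2
      simp only [if_true, Fin.isValue, show (0 : Fin 3) ≠ 1 by decide, show (0 : Fin 3) ≠ 2 by decide,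
        show (1 : Fin 3) ≠ 0 by decide, show (1 : Fin 3) ≠ 2 by decide,
        show (2 : Fin 3) ≠ 0 by decide, show (2 : Fin 3) ≠ 1 by decide, if_false] at *
      linear_combination (σ (x 0) * y 0) * h00 + (σ (x 0) * y 1) * h01 + (σ (x 0) * y 2) * h02 +
        (σ (x 1) * y 0) * h10 + (σ (x 1) * y 1) * h11 + (σ (x 1) * y 2) * h12 +
        (σ (x 2) * y 0) * h20 + (σ (x 2) * y 1) * h21 + (σ (x 2) * y 2) * h22)
  map_one' := by
    apply SU.ext
    show (1 : Matrix (Fin 3) (Fin 3) k).map f = 1
    exact Matrix.map_one _ (map_zero f) (map_one f)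
  map_mul' := by
    intro a b
    apply SU.ext
    show (a.M * b.M).map f =
      a.M.map f * b.M.map f
    exact Matrix.map_mul

variable (K σ)

/-- nonzero isotropic vectors -/
def IsoV : Type := {v : Fin 3 → K // v ≠ 0 ∧ hf σ v v = 0}

/-- proportionality -/
def isoSetoid : Setoid (IsoV K σ) where
  r v w := ∃ c : K, c ≠ 0 ∧ w.1 = c • v.1
  iseqv :=
    { refl := fun v => ⟨1, one_ne_zero, by rw [one_smul]⟩
      symm := by
        rintro v w ⟨c, hc, h⟩
        exact ⟨c⁻¹, inv_ne_zero hc, by rw [h, smul_smul, inv_mul_cancel₀ hc, one_smul]⟩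
      trans := by
        rintro u v w ⟨c, hc, h⟩ ⟨d, hd, h'⟩
        exact ⟨d * c, mul_ne_zero hd hc, by rw [h', h, smul_smul]⟩ }

/-- isotropic points -/
def XX : Type := Quotient (isoSetoid K σ)

variable {K σ}

/-- the action on nonzero isotropic vectors -/
def acV (g : SU K σ) (v : IsoV K σ) : IsoV K σ :=
  ⟨ac g v.1, fun h => v.2.1 (ac_inj g (h.trans (ac_zero g).symm)), by rw [ac_hf]; exact v.2.2⟩

instance : MulAction (SU K σ) (XX K σ) where
  smul g := Quotient.map' (s₁ := isoSetoid K σ) (s₂ := isoSetoid K σ) (acV g) (by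
    rintro v w ⟨c, hc, h⟩
    exact ⟨c, hc, by show ac g w.1 = c • ac g v.1; rw [h, ac_smul]⟩)
  one_smul := by
    intro x
    induction x using Quotient.inductionOn' with
    | h v =>
      refine Quotient.sound' ⟨1, one_ne_zero, ?_⟩
      show v.1 = (1 : K) • ac 1 v.1
      rw [one_smul, ac_one]
  mul_smul := by
    intro g h x
    induction x using Quotient.inductionOn' with
    | h v =>
      refine Quotient.sound' ⟨1, one_ne_zero, ?_⟩
      show ac g (ac h v.1) = (1 : K) • ac (g * h) v.1
      rw [one_smul, ac_mul]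

/-- the point of a vector -/
def pt (v : Fin 3 → K) (h0 : v ≠ 0) (h : hf σ v v = 0) : XX K σ :=
  Quotient.mk'' (s₁ := isoSetoid K σ) ⟨v, h0, h⟩

theorem smul_pt (g : SU K σ) (v : Fin 3 → K) (h0 : v ≠ 0) (h : hf σ v v = 0) :
    g • pt v h0 h = pt (ac g v) (fun h' => h0 (ac_inj g (h'.trans (ac_zero g).symm)))
      (by rw [ac_hf]; exact h) := rfl

theorem pt_eq_iff {v w : Fin 3 → K} {h0 : v ≠ 0} {h : hf σ v v = 0} {h0' : w ≠ 0}
    {h' : hf σ w w = 0} : pt v h0 h = pt w h0' h' ↔ ∃ c : K, c ≠ 0 ∧ w = c • v :=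
  Quotient.eq''

theorem exists_pt (x : XX K σ) : ∃ v h0 h, x = pt v h0 h := by
  induction x using Quotient.inductionOn' with
  | h v => exact ⟨v.1, v.2.1, v.2.2, rfl⟩

end

end Pool.Agent.N904.RO
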